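import Pool.Agent.Y659.MPS.Stm
import Pool.Agent.H780W.A

/-! MPS-U1R: a rank one element commuting with `X` fills the algebra quickly -/

namespace Pool.Agent.Y563.MPS

open Matrix
open Pool.Agent.Results.MP_8bfff4_mp.ExactValue
open Pool.Agent.Y659.MPS

variable {D : ℕ}

/-- a matrix of rank at most one is a product of a column and a row -/
theorem vecMulVec_of_rank {B : Matrix (Fin D) (Fin D) ℂ} (h : B.rank ≤ 1) :
    ∃ u η : Fin D → ℂ, B = vecMulVec u η := by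
  obtain ⟨u, hu⟩ := (finrank_le_one_iff (K := ℂ) (V := LinearMap.range B.mulVecLin)).1 h
  choose c hc using fun j : Fin D => hu ⟨B *ᵥ (Pi.single j 1), ⟨Pi.single j 1, rfl⟩⟩
  refine ⟨u, c, ?_⟩
  ext i j
  have h1 := congrArg (fun z : LinearMap.range B.mulVecLin => (z : Fin D → ℂ) i) (hc j)
  simp only [Matrix.mulVec_single_one] at h1
  rw [Matrix.vecMulVec_apply, mul_comm]
  exact h1.symm

/-- growth of a chain of subspaces -/
theorem grow (U : ℕ → Submodule ℂ (Fin D → ℂ)) (hmono : ∀ n, U n ≤ U (n + 1))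
    (h0 : 1 ≤ Module.finrank ℂ (U 0)) (hst : ∀ n, U (n + 1) ≤ U n → U n = ⊤) (n : ℕ) :
    n + 1 ≤ Module.finrank ℂ (U n) ∨ U n = ⊤ := by
  induction n with
  | zero => left; omega
  | succ n ih =>
    rcases ih with ih | ih
    · by_cases h : U (n + 1) ≤ U n
      · right
        rw [eq_top_iff, ← hst n h]
        exact hmono n
      · left
        have := Submodule.finrank_lt_finrank_of_lt (lt_of_le_not_ge (hmono n) h)
        omega
    · right
      rw [eq_top_iff, ← ih]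
      exact hmono n

theorem grow_top (hD : 1 ≤ D) (U : ℕ → Submodule ℂ (Fin D → ℂ)) (hmono : ∀ n, U n ≤ U (n + 1))
    (h0 : 1 ≤ Module.finrank ℂ (U 0)) (hst : ∀ n, U (n + 1) ≤ U n → U n = ⊤) :
    U (D - 1) = ⊤ := by
  rcases grow U hmono h0 hst (D - 1) with h | h
  · apply Submodule.eq_top_of_finrank_eq
    have h4 := Submodule.finrank_le (U (D - 1))
    rw [Module.finrank_fin_fun] at h4 ⊢
    omega
  · exact h

/-- the columns -/
def Co (W : Submodule ℂ (Matrix (Fin D) (Fin D) ℂ)) (a : Fin D → ℂ) (n : ℕ) :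
    Submodule ℂ (Fin D → ℂ) where
  carrier := {v | ∃ A ∈ W ^ n, A *ᵥ a = v}
  zero_mem' := ⟨0, Submodule.zero_mem _, by simp⟩
  add_mem' := by
    rintro _ _ ⟨A, hA, rfl⟩ ⟨B, hB, rfl⟩
    exact ⟨A + B, Submodule.add_mem _ hA hB, Matrix.add_mulVec _ _ _⟩
  smul_mem' := by
    rintro c _ ⟨A, hA, rfl⟩
    exact ⟨c • A, Submodule.smul_mem _ c hA, Matrix.smul_mulVec _ _ _⟩

/-- the rows -/
def Ro (W : Submodule ℂ (Matrix (Fin D) (Fin D) ℂ)) (a : Fin D → ℂ) (n : ℕ) :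
    Submodule ℂ (Fin D → ℂ) where
  carrier := {v | ∃ A ∈ W ^ n, a ᵥ* A = v}
  zero_mem' := ⟨0, Submodule.zero_mem _, by simp⟩
  add_mem' := by
    rintro _ _ ⟨A, hA, rfl⟩ ⟨B, hB, rfl⟩
    exact ⟨A + B, Submodule.add_mem _ hA hB, Matrix.vecMul_add _ _ _⟩
  smul_mem' := by
    rintro c _ ⟨A, hA, rfl⟩
    exact ⟨c • A, Submodule.smul_mem _ c hA, Matrix.vecMul_smul _ _ _⟩

theorem one_mem_pow_zero (W : Submodule ℂ (Matrix (Fin D) (Fin D) ℂ)) :
    (1 : Matrix (Fin D) (Fin D) ℂ) ∈ W ^ 0 := by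
  rw [pow_zero]
  exact Submodule.one_le.1 le_rfl

theorem one_le_finrank {R : Submodule ℂ (Fin D → ℂ)} {a : Fin D → ℂ} (ha : a ≠ 0) (h : a ∈ R) :
    1 ≤ Module.finrank ℂ R := by
  have h1 : R ≠ ⊥ := by
    rintro rfl
    exact ha ((Submodule.mem_bot ℂ).1 h)
  have h2 := Submodule.one_le_finrank_iff.2 h1
  exact h2

theorem stable_top' {W : Submodule ℂ (Matrix (Fin D) (Fin D) ℂ)} {N : ℕ} (hN : W ^ N = ⊤)
    {R : Submodule ℂ (Fin D → ℂ)} (hR : R ≠ ⊥) (h : ∀ w ∈ R, ∀ A ∈ W, A *ᵥ w ∈ R) : R = ⊤ := by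
  obtain ⟨η, hη, hη0⟩ := Submodule.exists_mem_ne_zero_of_ne_bot hR
  have hWp : ∀ n, ∀ A ∈ W ^ n, ∀ w ∈ R, A *ᵥ w ∈ R := by
    intro n
    induction n with
    | zero =>
      intro A hA w hw
      rw [pow_zero, Submodule.mem_one] at hA
      obtain ⟨a, rfl⟩ := hA
      rw [Algebra.algebraMap_eq_smul_one, Matrix.smul_mulVec, Matrix.one_mulVec]
      exact R.smul_mem _ hw
    | succ n ih =>
      intro A hA w hw
      rw [pow_succ] at hA
      induction hA using Submodule.mul_induction_on' with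
      | mem_mul_mem m hm n hn => rw [← Matrix.mulVec_mulVec]; exact ih m hm _ (h w hw n hn)
      | add x hx y hy h1 h2 => rw [Matrix.add_mulVec]; exact R.add_mem h1 h2
  rw [eq_top_iff]
  intro v _
  obtain ⟨ξ, hξ⟩ := exists_dual hη0
  have h1 := hWp N (rk v ξ) (by rw [hN]; trivial) η hη
  rw [rk_mulVec, hξ, one_smul] at h1
  exact h1

theorem Co_top (hD : 1 ≤ D) {W : Submodule ℂ (Matrix (Fin D) (Fin D) ℂ)}
    {X : Matrix (Fin D) (Fin D) ℂ} {N : ℕ} (hX : X ∈ W) (hN : W ^ N = ⊤) {a : Fin D → ℂ}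
    (ha : a ≠ 0) {l : ℂ} (hl : l ≠ 0) (hXa : X *ᵥ a = l • a) : Co W a (D - 1) = ⊤ := by
  have hmono : ∀ n, Co W a n ≤ Co W a (n + 1) := by
    rintro n _ ⟨A, hA, rfl⟩
    refine ⟨l⁻¹ • (A * X), Submodule.smul_mem _ _ ?_, ?_⟩
    · rw [pow_succ]; exact Submodule.mul_mem_mul hA hX
    · rw [Matrix.smul_mulVec, ← Matrix.mulVec_mulVec, hXa, Matrix.mulVec_smul, smul_smul,
        inv_mul_cancel₀ hl, one_smul]
  have h0 : ∀ n, a ∈ Co W a n := by
    intro n
    induction n with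
    | zero => exact ⟨1, one_mem_pow_zero W, Matrix.one_mulVec _⟩
    | succ n ih => exact hmono n ih
  apply grow_top hD _ hmono (one_le_finrank ha (h0 0))
  intro n hn
  apply stable_top' hN
  · intro hbot
    have := h0 n
    rw [hbot, Submodule.mem_bot] at this
    exact ha this
  · rintro _ ⟨B, hB, rfl⟩ A hA
    apply hn
    refine ⟨A * B, ?_, (Matrix.mulVec_mulVec _ _ _).symm⟩
    rw [pow_succ']
    exact Submodule.mul_mem_mul hA hB

theorem Ro_top (hD : 1 ≤ D) {W : Submodule ℂ (Matrix (Fin D) (Fin D) ℂ)}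
    {X : Matrix (Fin D) (Fin D) ℂ} {N : ℕ} (hX : X ∈ W) (hN : W ^ N = ⊤) {a : Fin D → ℂ}
    (ha : a ≠ 0) {l : ℂ} (hl : l ≠ 0) (hXa : a ᵥ* X = l • a) : Ro W a (D - 1) = ⊤ := by
  have hmono : ∀ n, Ro W a n ≤ Ro W a (n + 1) := by
    rintro n _ ⟨A, hA, rfl⟩
    refine ⟨l⁻¹ • (X * A), Submodule.smul_mem _ _ ?_, ?_⟩
    · rw [pow_succ']; exact Submodule.mul_mem_mul hX hA
    · rw [Matrix.vecMul_smul, ← Matrix.vecMul_vecMul, hXa, Matrix.smul_vecMul, smul_smul,
        inv_mul_cancel₀ hl, one_smul]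
  have h0 : ∀ n, a ∈ Ro W a n := by
    intro n
    induction n with
    | zero => exact ⟨1, one_mem_pow_zero W, Matrix.vecMul_one _⟩
    | succ n ih => exact hmono n ih
  apply grow_top hD _ hmono (one_le_finrank ha (h0 0))
  intro n hn
  apply Pool.Agent.H780W.stable_top hN
  · intro hbot
    have := h0 n
    rw [hbot, Submodule.mem_bot] at this
    exact ha this
  · rintro _ ⟨B, hB, rfl⟩ A hA
    apply hn
    refine ⟨B * A, ?_, (Matrix.vecMul_vecMul _ _ _).symm⟩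
    rw [pow_succ]
    exact Submodule.mul_mem_mul hB hA

theorem U1R : St_U1R := by
  intro D W X η N m hD hX hXu hN hcom hrk hm
  obtain ⟨a, ξ, rfl⟩ := vecMulVec_of_rank (le_of_eq hrk)
  have hne : vecMulVec a ξ ≠ 0 := by
    intro h
    rw [h, Matrix.rank_zero] at hrk
    exact absurd hrk (by norm_num)
  have ha : a ≠ 0 := by
    rintro rfl
    exact hne (zero_vecMulVec _)
  have hξ : ξ ≠ 0 := by
    rintro rfl
    exact hne (vecMulVec_zero _)
  have h1 : rk (X *ᵥ a) ξ = rk a (ξ ᵥ* X) := by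
    rw [← mul_rk, ← rk_mul]
    exact hcom
  obtain ⟨b, hb⟩ := exists_dual hξ
  obtain ⟨β, hβ⟩ := exists_dual ha
  -- `X a = l a`
  have hXa : X *ᵥ a = ((ξ ᵥ* X) ⬝ᵥ b) • a := by
    have h2 := congrArg (fun M => M *ᵥ b) h1
    simp only [rk_mulVec] at h2
    rw [dotProduct_comm, hb, one_smul] at h2
    exact h2
  set l := (ξ ᵥ* X) ⬝ᵥ b with hl
  have hXξ : ξ ᵥ* X = l • ξ := by
    rw [hXa] at h1
    have h2 := congrArg (fun M => β ᵥ* M) h1
    simp only [rk, vecMul_vecMulVec, hβ, one_smul, dotProduct_smul, smul_eq_mul, mul_one] at h2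
    exact h2.symm
  have hl0 : l ≠ 0 := by
    intro h0
    rw [h0, zero_smul] at hXa
    have := Matrix.mulVec_injective_of_isUnit hXu
    exact ha (this (by rw [hXa, Matrix.mulVec_zero]))
  -- the columns and rows
  have hC := Co_top hD hX hN ha hl0 hXa
  have hR := Ro_top hD hX hN hξ hl0 hXξ
  have hη : rk a ξ ∈ W ^ m := by
    have h3 : ∀ k : ℕ, X ^ k * rk a ξ = l ^ k • rk a ξ := by
      intro k
      induction k with
      | zero => simp
      | succ k ih =>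
        rw [pow_succ, mul_assoc, mul_rk, hXa, rk_smul_left, mul_smul_comm, ih, smul_smul]
        congr 1
        ring
    have h4 : X ^ m * rk a ξ ∈ W ^ m := hm
    rw [h3] at h4
    have h5 := Submodule.smul_mem _ (l ^ m)⁻¹ h4
    rwa [smul_smul, inv_mul_cancel₀ (pow_ne_zero _ hl0), one_smul] at h5
  -- all rank one matrices
  have hall : ∀ u ζ : Fin D → ℂ, rk u ζ ∈ W ^ (m + 2 * (D - 1)) := by
    intro u ζ
    have hu : u ∈ Co W a (D - 1) := by rw [hC]; trivial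
    have hζ : ζ ∈ Ro W ξ (D - 1) := by rw [hR]; trivial
    obtain ⟨A, hA, rfl⟩ := hu
    obtain ⟨B, hB, rfl⟩ := hζ
    rw [← mul_rk, ← rk_mul]
    have h6 : m + 2 * (D - 1) = (D - 1) + (m + (D - 1)) := by ring
    rw [h6, pow_add, pow_add]
    exact Submodule.mul_mem_mul hA (Submodule.mul_mem_mul hη hB)
  rw [eq_top_iff]
  intro M _
  have h7 : M = ∑ i, rk (Pi.single i 1) (M i) := by
    ext a b
    rw [Matrix.sum_apply]
    simp only [rk, vecMulVec_apply]
    rw [Finset.sum_eq_single a]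
    · simp
    · intro c _ hc
      rw [Pi.single_eq_of_ne (Ne.symm hc), zero_mul]
    · intro h'; exact absurd (Finset.mem_univ _) h'
  rw [h7]
  exact Submodule.sum_mem _ fun i _ => hall _ _

end Pool.Agent.Y563.MPS
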